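import Pool.Agent.H53.DL.Dir

/-!
If a set of `k`-tuples of integers has upper Banach density zero inside `B ^ k` for a Bohr set `B`, then for almost
all `k`-tuples `a` of integers all dilates `m • a`, `1 ≤ m ≤ M`, which are in `B ^ k` are outside the set; and for
`M ≥ M₀` (which depends on `B` and `k` only) every `a` has such a dilate in `B ^ k`.
-/

namespace Pool.Agent.H53.DL

open Finset

theorem dil_mem {k J : ℕ} (α : Fin J → ℝ) (ρ : ℝ) (hρ : 0 < ρ) :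
    ∃ M : ℕ, 1 ≤ M ∧ ∀ a : Fin k → ℤ, ∃ m : ℕ, 1 ≤ m ∧ m ≤ M ∧
      ∀ j, ∀ i, ∃ n : ℤ, |(((m : ℤ) * a j : ℤ) : ℝ) * α i - n| < ρ := by
  obtain ⟨M, hM1, hM⟩ := dirichlet (Fin k × Fin J) ρ hρ
  refine ⟨M, hM1, fun a => ?_⟩
  obtain ⟨m, hm1, hm2, hm3⟩ := hM (fun p => (a p.1 : ℝ) * α p.2)
  refine ⟨m, hm1, hm2, fun j i => ?_⟩
  obtain ⟨n, hn⟩ := hm3 (j, i)
  refine ⟨n, ?_⟩
  have e : (((m : ℤ) * a j : ℤ) : ℝ) * α i = (m : ℝ) * ((a j : ℝ) * α i) := by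
    push_cast
    ring
  rw [e]
  exact hn

open Classical in
theorem dilate {k J : ℕ} (α : Fin J → ℝ) (ρ : ℝ) (Bad : (Fin k → ℤ) → Prop)
    (H : ∀ ε : ℝ, 0 < ε → ∃ X₀ : ℕ, ∀ X : ℕ, X₀ ≤ X → ∀ z : Fin k → ℤ,
      (((Fintype.piFinset (fun j => Ioc (z j) (z j + X))).filter
        (fun a => (∀ j, ∀ i, ∃ m : ℤ, |((a j : ℤ) : ℝ) * α i - m| < ρ) ∧ Bad a)).card : ℝ) ≤
          ε * (X : ℝ) ^ k) (M : ℕ) (hM1 : 1 ≤ M) (ε : ℝ) (hε : 0 < ε) :
    ∃ X₀ : ℕ, ∀ X : ℕ, X₀ ≤ X → ∀ z : Fin k → ℤ,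
      (((Fintype.piFinset (fun j => Ioc (z j) (z j + X))).filter
        (fun a => ∃ m : ℕ, 1 ≤ m ∧ m ≤ M ∧ (∀ j, ∀ i, ∃ n : ℤ, |(((m : ℤ) * a j : ℤ) : ℝ) * α i - n| < ρ) ∧
          Bad (fun j => m * a j))).card : ℝ) ≤ ε * (X : ℝ) ^ k := by
  have hMr : (1 : ℝ) ≤ M := by exact_mod_cast hM1
  obtain ⟨X₀, hX₀⟩ := H (ε / (M * (M : ℝ) ^ k)) (by positivity)
  refine ⟨X₀, fun X hX z => ?_⟩
  -- the bad tuples for one multiplier
  have h1 : ∀ m ∈ Icc 1 M, ((((Fintype.piFinset (fun j => Ioc (z j) (z j + X))).filter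
      (fun a => (∀ j, ∀ i, ∃ n : ℤ, |(((m : ℤ) * a j : ℤ) : ℝ) * α i - n| < ρ) ∧
        Bad (fun j => m * a j))).card : ℕ) : ℝ) ≤ ε / M * (X : ℝ) ^ k := by
    intro m hm
    rw [mem_Icc] at hm
    have hm0 : (0 : ℤ) < m := by exact_mod_cast hm.1
    have hmX : X₀ ≤ m * X := hX.trans (Nat.le_mul_of_pos_left _ (by omega))
    refine le_trans ?_ (le_trans (hX₀ (m * X) hmX (fun j => m * z j)) ?_)
    · rw [Nat.cast_le]
      refine card_le_card_of_injOn (fun a j => (m : ℤ) * a j) ?_ ?_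
      · intro a ha
        rw [mem_coe, mem_filter, Fintype.mem_piFinset] at ha
        rw [mem_coe, mem_filter, Fintype.mem_piFinset]
        refine ⟨fun j => ?_, ha.2.1, ha.2.2⟩
        have h2 := mem_Ioc.1 (ha.1 j)
        rw [mem_Ioc]
        constructor
        · exact mul_lt_mul_of_pos_left h2.1 hm0
        · have h3 := mul_le_mul_of_nonneg_left h2.2 hm0.le
          push_cast
          linarith
      · intro a _ b _ hab
        funext j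
        have h2 := congrFun hab j
        exact mul_left_cancel₀ hm0.ne' h2
    · have hm1 : (m : ℝ) ≤ M := by exact_mod_cast hm.2
      have h2 : ((m * X : ℕ) : ℝ) ^ k ≤ (M : ℝ) ^ k * (X : ℝ) ^ k := by
        push_cast
        rw [mul_pow]
        exact mul_le_mul_of_nonneg_right (pow_le_pow_left₀ (Nat.cast_nonneg _) hm1 k)
          (by positivity)
      calc ε / (M * (M : ℝ) ^ k) * ((m * X : ℕ) : ℝ) ^ k ≤
            ε / (M * (M : ℝ) ^ k) * ((M : ℝ) ^ k * (X : ℝ) ^ k) :=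
            mul_le_mul_of_nonneg_left h2 (by positivity)
        _ = ε / M * (X : ℝ) ^ k := by
            have : (M : ℝ) ≠ 0 := by positivity
            field_simp
  have h2 : (Fintype.piFinset (fun j => Ioc (z j) (z j + X))).filter
      (fun a => ∃ m : ℕ, 1 ≤ m ∧ m ≤ M ∧ (∀ j, ∀ i, ∃ n : ℤ, |(((m : ℤ) * a j : ℤ) : ℝ) * α i - n| < ρ) ∧
          Bad (fun j => m * a j)) ⊆
      (Icc 1 M).biUnion (fun m => (Fintype.piFinset (fun j => Ioc (z j) (z j + X))).filter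
      (fun a => (∀ j, ∀ i, ∃ n : ℤ, |(((m : ℤ) * a j : ℤ) : ℝ) * α i - n| < ρ) ∧
        Bad (fun j => m * a j))) := by
    intro a ha
    rw [mem_filter] at ha
    obtain ⟨m, hm1, hm2, hm3, hm4⟩ := ha.2
    rw [mem_biUnion]
    exact ⟨m, mem_Icc.2 ⟨hm1, hm2⟩, mem_filter.2 ⟨ha.1, hm3, hm4⟩⟩
  have h3 := (Nat.cast_le (α := ℝ)).2 ((card_le_card h2).trans card_biUnion_le)
  rw [Nat.cast_sum] at h3
  refine h3.trans ((sum_le_sum h1).trans ?_)
  rw [sum_const, Nat.card_Icc, Nat.add_sub_cancel, nsmul_eq_mul]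
  have : (M : ℝ) ≠ 0 := by positivity
  have e : (M : ℝ) * (ε / M * (X : ℝ) ^ k) = ε * (X : ℝ) ^ k := by
    field_simp
  rw [e]

end Pool.Agent.H53.DL
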