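import Mathlib

/-!
Simultaneous approximation with a bounded multiplier (pigeonhole), and its consequence for Bohr sets.
-/

namespace Pool.Agent.H53.DL

open Finset

/-- Dirichlet: a bounded multiple of every point of the torus is close to `0`. -/
theorem dirichlet (ι : Type) [Fintype ι] [DecidableEq ι] (ρ : ℝ) (hρ : 0 < ρ) :
    ∃ M : ℕ, 1 ≤ M ∧ ∀ x : ι → ℝ, ∃ m : ℕ, 1 ≤ m ∧ m ≤ M ∧ ∀ i, ∃ z : ℤ, |(m : ℝ) * x i - z| < ρ := by
  obtain ⟨q, hq⟩ := exists_nat_gt (1 / ρ)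
  have hq0 : (0 : ℝ) < q := lt_trans (one_div_pos.2 hρ) hq
  have hqn : 0 < q := by exact_mod_cast hq0
  refine ⟨q ^ Fintype.card ι, Nat.one_le_pow _ _ hqn, fun x => ?_⟩
  have hfl : ∀ y : ℝ, ⌊(q : ℝ) * Int.fract y⌋₊ < q := by
    intro y
    have h0 : 0 ≤ Int.fract y := Int.fract_nonneg y
    have h1 : Int.fract y < 1 := Int.fract_lt_one y
    rw [Nat.floor_lt (by positivity)]
    nlinarith
  obtain ⟨φ, hφ⟩ : ∃ φ : ℕ → (ι → Fin q), ∀ m i, ((φ m i : Fin q) : ℕ) =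
      ⌊(q : ℝ) * Int.fract ((m : ℝ) * x i)⌋₊ :=
    ⟨fun m i => ⟨_, hfl ((m : ℝ) * x i)⟩, fun m i => rfl⟩
  have hcard : (Finset.univ : Finset (ι → Fin q)).card < (range (q ^ Fintype.card ι + 1)).card := by
    rw [card_univ, Fintype.card_fun, Fintype.card_fin, card_range]
    omega
  obtain ⟨m, hm, m', hm', hne, heq⟩ := exists_ne_map_eq_of_card_lt_of_maps_to hcard
    (fun m _ => mem_univ (φ m))
  have key : ∀ m m' : ℕ, m < m' → m' ≤ q ^ Fintype.card ι → φ m = φ m' →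
      ∃ n : ℕ, 1 ≤ n ∧ n ≤ q ^ Fintype.card ι ∧ ∀ i, ∃ z : ℤ, |(n : ℝ) * x i - z| < ρ := by
    intro m m' hlt hle he
    refine ⟨m' - m, by omega, by omega, fun i => ?_⟩
    refine ⟨⌊(m' : ℝ) * x i⌋ - ⌊(m : ℝ) * x i⌋, ?_⟩
    have e1 : ⌊(q : ℝ) * Int.fract ((m : ℝ) * x i)⌋₊ = ⌊(q : ℝ) * Int.fract ((m' : ℝ) * x i)⌋₊ := by
      rw [← hφ, ← hφ, he]
    obtain ⟨y, hy⟩ : ∃ y, y = (m : ℝ) * x i := ⟨_, rfl⟩
    obtain ⟨y', hy'⟩ : ∃ y', y' = (m' : ℝ) * x i := ⟨_, rfl⟩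
    rw [← hy, ← hy'] at e1 ⊢
    have a1 := Nat.floor_le (a := (q : ℝ) * Int.fract y)
      (by have := Int.fract_nonneg y; positivity)
    have a2 := Nat.floor_le (a := (q : ℝ) * Int.fract y')
      (by have := Int.fract_nonneg y'; positivity)
    have b1 := Nat.lt_floor_add_one ((q : ℝ) * Int.fract y)
    have b2 := Nat.lt_floor_add_one ((q : ℝ) * Int.fract y')
    rw [e1] at a1 b1
    have c1 : (q : ℝ) * (Int.fract y' - Int.fract y) < 1 := by linarith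
    have c2 : -1 < (q : ℝ) * (Int.fract y' - Int.fract y) := by linarith
    have e2 : (((m' - m : ℕ) : ℝ)) * x i - ((⌊y'⌋ - ⌊y⌋ : ℤ) : ℝ) = Int.fract y' - Int.fract y := by
      rw [Nat.cast_sub hlt.le]
      push_cast
      unfold Int.fract
      rw [sub_mul, ← hy, ← hy']
      ring
    rw [e2, abs_lt]
    have h3 : 1 < ρ * q := by
      rwa [div_lt_iff₀ hρ, mul_comm] at hq
    constructor
    · by_contra h
      push Not at h
      nlinarith [mul_le_mul_of_nonneg_left h hq0.le]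
    · by_contra h
      push Not at h
      nlinarith [mul_le_mul_of_nonneg_left h hq0.le]
  rw [mem_range] at hm hm'
  rcases lt_or_gt_of_ne hne with h | h
  · exact key m m' h (by omega) heq
  · exact key m' m h (by omega) heq.symm

end Pool.Agent.H53.DL
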