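import Pool.Agent.H21.CT.Pairs5
import Pool.Agent.H53.DL.Dil

/-!
Dilates: almost all `k`-tuples of integers satisfy the exact form of the prime tuples conjecture after a bounded
dilation; almost all pairs `(u, v)` have a bounded multiple `(m u, m v)` which is infinitely often a pair of
consecutive gaps between primes.
-/

namespace Pool.Agent.H53.DL

open Finset Pool.Agent.H92.BH Pool.Agent.H74.BT Pool.Agent.H21.CT Pool.Agent.H21.CG

open Classical in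
theorem dil_all {r : ℕ} (c : ℕ → Fin r) (k : ℕ) (hk : 1 ≤ k) :
    ∃ (M J : ℕ) (α : Fin J → ℝ) (ρ : ℝ), 1 ≤ M ∧ 0 < ρ ∧
      (∀ a : Fin k → ℤ, ∃ m : ℕ, 1 ≤ m ∧ m ≤ M ∧ ∀ j, (m : ℤ) * a j ∈ Boh α ρ) ∧
      ∀ ε : ℝ, 0 < ε → ∃ X₀ : ℕ, ∀ X : ℕ, X₀ ≤ X → ∀ z : Fin k → ℤ,
      (((Fintype.piFinset (fun j => Ioc (z j) (z j + X))).filter
        (fun a => ∃ m : ℕ, 1 ≤ m ∧ m ≤ M ∧ (∀ j, (m : ℤ) * a j ∈ Boh α ρ) ∧ ∃ G : Set ℕ, OnePair G ∧
          ¬ ExtG G c (insert 0 (univ.image (fun j => (m : ℤ) * a j))))).card : ℝ) ≤ ε * (X : ℝ) ^ k := by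
  obtain ⟨J, α, ρ, hρ, H⟩ := bohr_all c k hk
  obtain ⟨M, hM1, hM⟩ := dil_mem (k := k) α ρ hρ
  refine ⟨M, J, α, ρ, hM1, hρ, fun a => ?_, fun ε hε => ?_⟩
  · obtain ⟨m, hm1, hm2, hm3⟩ := hM a
    exact ⟨m, hm1, hm2, fun j => hm3 j⟩
  obtain ⟨X₀, hX₀⟩ := dilate α ρ (fun a => ∃ G : Set ℕ, OnePair G ∧
    ¬ ExtG G c (insert 0 (univ.image a))) (fun ε hε => by
      obtain ⟨X₀, h⟩ := H ε hε
      refine ⟨X₀, fun X hX z => le_trans (Nat.cast_le.2 (card_le_card ?_)) (h X hX z)⟩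
      intro a ha
      rw [mem_filter] at ha ⊢
      exact ⟨ha.1, fun j => ha.2.1 j, ha.2.2⟩) M hM1 ε hε
  refine ⟨X₀, fun X hX z => le_trans (Nat.cast_le.2 (card_le_card ?_)) (hX₀ X hX z)⟩
  intro a ha
  rw [mem_filter] at ha ⊢
  obtain ⟨m, hm1, hm2, hm3, hm4⟩ := ha.2
  exact ⟨ha.1, m, hm1, hm2, fun j => hm3 j, hm4⟩

open Classical in
theorem rationals : ∃ M : ℕ, ∀ ε : ℝ, 0 < ε → ∃ X₀ : ℕ, ∀ X : ℕ, X₀ ≤ X →
    ((((Icc 1 X) ×ˢ (Icc 1 X)).filter (fun p : ℕ × ℕ =>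
      ¬ ∃ m ≤ M, {n : ℕ | gap n = m * p.1 ∧ gap (n + 1) = m * p.2}.Infinite)).card : ℝ) ≤
        ε * (X : ℝ) ^ 2 := by
  obtain ⟨M, J, α, ρ, hM1, hρ, hM, H⟩ := dil_all (r := 1) (fun _ => 0) 2 (by norm_num)
  refine ⟨M, fun ε hε => ?_⟩
  obtain ⟨X₀, hX₀⟩ := H (ε / 4) (by positivity)
  refine ⟨X₀, fun X hX => ?_⟩
  have h1 := hX₀ (2 * X) (by omega) (fun _ => 0)
  have h2 : ε / 4 * ((2 * X : ℕ) : ℝ) ^ 2 = ε * (X : ℝ) ^ 2 := by
    push_cast
    ring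
  rw [h2] at h1
  refine le_trans ?_ h1
  refine Nat.cast_le.2 (card_le_card_of_injOn
    (fun p : ℕ × ℕ => ![(p.1 : ℤ), (p.1 : ℤ) + p.2]) ?_ ?_)
  · rintro ⟨u, v⟩ hp
    rw [mem_coe, mem_filter, mem_product, mem_Icc, mem_Icc] at hp
    obtain ⟨⟨⟨hu1, hu2⟩, ⟨hv1, hv2⟩⟩, hbad⟩ := hp
    simp only at hu1 hu2 hv1 hv2 hbad
    rw [mem_coe, mem_filter]
    refine ⟨?_, ?_⟩
    · rw [Fintype.mem_piFinset]
      intro i
      fin_cases i
      · show (u : ℤ) ∈ Ioc (0 : ℤ) (0 + ((2 * X : ℕ) : ℤ))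
        rw [mem_Ioc]
        push_cast
        omega
      · show (u : ℤ) + v ∈ Ioc (0 : ℤ) (0 + ((2 * X : ℕ) : ℤ))
        rw [mem_Ioc]
        push_cast
        omega
    · obtain ⟨m, hm1, hm2, hm3⟩ := hM ![(u : ℤ), (u : ℤ) + v]
      refine ⟨m, hm1, hm2, hm3, {0, 1}, ?_, fun hext => hbad ⟨m, hm2, ?_⟩⟩
      · intro s hs t ht hs1 ht1
        simp only [Set.mem_insert_iff, Set.mem_singleton_iff] at hs hs1 ht ht1
        omega
      · refine pair_of_ext (fun _ => 0) (m * u) (m * v) (Nat.mul_pos hm1 (by omega))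
          (Nat.mul_pos hm1 (by omega)) ?_
        have e : (insert 0 (univ.image (fun j : Fin 2 => (m : ℤ) *
            (![(u : ℤ), (u : ℤ) + v] : Fin 2 → ℤ) j)) : Finset ℤ) =
            {0, ((m * u : ℕ) : ℤ), ((m * u : ℕ) : ℤ) + ((m * v : ℕ) : ℤ)} := by
          ext x
          simp only [mem_insert, mem_image, mem_univ, true_and,
            mem_singleton, Fin.exists_fin_two, Matrix.cons_val_zero, Matrix.cons_val_one,
            Matrix.cons_val_fin_one]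
          push_cast
          rw [mul_add]
          constructor
          · rintro (h | h | h)
            · exact Or.inl h
            · exact Or.inr (Or.inl h.symm)
            · exact Or.inr (Or.inr h.symm)
          · rintro (h | h | h)
            · exact Or.inl h
            · exact Or.inr (Or.inl h.symm)
            · exact Or.inr (Or.inr h.symm)
        rw [← e]
        exact hext
  · rintro ⟨u, v⟩ _ ⟨u', v'⟩ _ h
    have h3 : (u : ℤ) = u' := congrFun h 0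
    have h4 : (u : ℤ) + v = u' + v' := congrFun h 1
    have h5 : u = u' := by exact_mod_cast h3
    have h6 : v = v' := by omega
    rw [h5, h6]

end Pool.Agent.H53.DL
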